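import Pool.Agent.R853.CP.Riesz

/-!
For a middle exact commuting pair `(A, C)` with `C` compact and all kernels `ker (A + t C)` finite
dimensional, the kernel of `A + t C` is zero for all but countably many `t`.
-/

open Module Module.End Filter Topology

namespace Pool.Agent.R853.CP

variable {X : Type*} [NormedAddCommGroup X] [NormedSpace ℂ X]

/-- Step a: a non zero kernel of `A + t C` contains a common eigenvector. -/
lemma joint_eigen (A C : X →L[ℂ] X) (hcomm : ∀ x, A (C x) = C (A x))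
    (hex : ∀ x y, A y = C x → ∃ z, x = A z ∧ y = C z) (t : ℂ)
    (hfin : FiniteDimensional ℂ (LinearMap.ker ((A + t • C : X →L[ℂ] X) : X →ₗ[ℂ] X)))
    (hne : ∃ x, x ≠ 0 ∧ A x + t • C x = 0) :
    ∃ c : ℂ, c ≠ 0 ∧ ∃ x : X, x ≠ 0 ∧ C x = c • x ∧ A x = (-(t * c)) • x := by
  set W : Submodule ℂ X := LinearMap.ker ((A + t • C : X →L[ℂ] X) : X →ₗ[ℂ] X) with hW
  have hmem : ∀ x, x ∈ W ↔ A x + t • C x = 0 := by
    intro x
    rw [hW, LinearMap.mem_ker]
    simp
  have hinv : ∀ x ∈ W, (C : X →ₗ[ℂ] X) x ∈ W := by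
    intro x hx
    rw [hmem] at hx ⊢
    have : A (C x) + t • C (C x) = C (A x + t • C x) := by
      rw [hcomm, map_add, map_smul]
    show A (C x) + t • C (C x) = 0
    rw [this, hx, map_zero]
  set L : W →ₗ[ℂ] W := (C : X →ₗ[ℂ] X).restrict hinv with hL
  have hLc : ∀ x : W, ((L x : W) : X) = C x := fun x => rfl
  have hsurj : Function.Surjective L := by
    rintro ⟨x, hx⟩
    rw [hmem] at hx
    have h1 : A x = C (-t • x) := by
      rw [map_smul, neg_smul]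
      exact eq_neg_of_add_eq_zero_left hx
    obtain ⟨z, hz1, hz2⟩ := hex _ _ h1
    have hz : z ∈ W := by
      rw [hmem, ← hz1, ← hz2, neg_smul]
      simp
    refine ⟨⟨z, hz⟩, Subtype.ext ?_⟩
    rw [hLc]
    exact hz2.symm
  have hinj : Function.Injective L := LinearMap.injective_iff_surjective.2 hsurj
  obtain ⟨x0, hx0, hx0'⟩ := hne
  have : Nontrivial W := ⟨⟨⟨x0, (hmem x0).2 hx0'⟩, 0, fun h => hx0 (congrArg Subtype.val h)⟩⟩
  obtain ⟨c, hc⟩ := Module.End.exists_eigenvalue L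
  obtain ⟨v, hv⟩ := hc.exists_hasEigenvector
  have hv1 : L v = c • v := hv.apply_eq_smul
  have hv0 : v ≠ 0 := hv.2
  have hc0 : c ≠ 0 := by
    rintro rfl
    rw [zero_smul] at hv1
    exact hv0 (hinj (by rw [hv1, map_zero]))
  have hCv : C (v : X) = c • (v : X) := by
    rw [← hLc, hv1]
    rfl
  refine ⟨c, hc0, v, fun h => hv0 (Subtype.ext h), hCv, ?_⟩
  have h2 := (hmem v).1 v.2
  rw [hCv] at h2
  rw [eq_neg_of_add_eq_zero_left h2, neg_smul, mul_smul]

/-- Step b. -/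
lemma finite_param (A C : X →L[ℂ] X) (hC : IsCompactOperator C)
    (hcomm : ∀ x, A (C x) = C (A x)) (c : ℂ) (hc : c ≠ 0) :
    {t : ℂ | ∃ x : X, x ≠ 0 ∧ C x = c • x ∧ A x = (-(t * c)) • x}.Finite := by
  set E : Submodule ℂ X := LinearMap.ker ((C - c • (1 : X →L[ℂ] X) : X →L[ℂ] X) : X →ₗ[ℂ] X) with hE
  have hmem : ∀ x, x ∈ E ↔ C x = c • x := by
    intro x
    rw [hE, LinearMap.mem_ker]
    simp [sub_eq_zero]
  have hcl : IsClosed (E : Set X) := (C - c • (1 : X →L[ℂ] X)).isClosed_ker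
  have hfd : FiniteDimensional ℂ E := by
    refine finDim_of_fix (c⁻¹ • C) ?_ E hcl ?_
    · exact hC.smul c⁻¹
    · intro x hx
      rw [hmem] at hx
      simp [hx, smul_smul, hc]
  have hinv : ∀ x ∈ E, (A : X →ₗ[ℂ] X) x ∈ E := by
    intro x hx
    rw [hmem] at hx ⊢
    show C (A x) = c • A x
    rw [← hcomm, hx, map_smul]
  set L : E →ₗ[ℂ] E := (A : X →ₗ[ℂ] X).restrict hinv with hL
  have hLc : ∀ x : E, ((L x : E) : X) = A x := fun x => rfl
  have hfin := Module.End.finite_hasEigenvalue L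
  have hinj : Function.Injective (fun t : ℂ => -(t * c)) := by
    intro a b h
    have h1 : a * c = b * c := neg_injective h
    exact mul_right_cancel₀ hc h1
  refine (hfin.preimage (f := fun t : ℂ => -(t * c)) hinj.injOn).subset ?_
  rintro t ⟨x, hx0, hx1, hx2⟩
  show Module.End.HasEigenvalue L (-(t * c))
  have hxE : x ∈ E := (hmem x).2 hx1
  refine Module.End.hasEigenvalue_of_hasEigenvector (x := ⟨x, hxE⟩) ?_
  rw [Module.End.hasEigenvector_iff, Module.End.mem_eigenspace_iff]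
  exact ⟨Subtype.ext hx2, fun h => hx0 (congrArg Subtype.val h)⟩

/-- Step c: the parameters with a non zero kernel form a countable set. -/
theorem countable_bad (A C : X →L[ℂ] X) (hC : IsCompactOperator C)
    (hcomm : ∀ x, A (C x) = C (A x))
    (hex : ∀ x y, A y = C x → ∃ z, x = A z ∧ y = C z)
    (hfin : ∀ t : ℂ, FiniteDimensional ℂ
      (LinearMap.ker ((A + t • C : X →L[ℂ] X) : X →ₗ[ℂ] X))) :
    {t : ℂ | ∃ x, x ≠ 0 ∧ A x + t • C x = 0}.Countable := by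
  have hcnt : {c : ℂ | c ≠ 0 ∧ ∃ x : X, x ≠ 0 ∧ C x = c • x}.Countable := by
    have hsub : {c : ℂ | c ≠ 0 ∧ ∃ x : X, x ≠ 0 ∧ C x = c • x} ⊆
        ⋃ n : ℕ, {c : ℂ | (1 / ((n : ℝ) + 1)) ≤ ‖c‖ ∧ ∃ x : X, x ≠ 0 ∧ C x = c • x} := by
      rintro c ⟨hc, h⟩
      obtain ⟨n, hn⟩ := exists_nat_one_div_lt (norm_pos_iff.2 hc)
      exact Set.mem_iUnion.2 ⟨n, hn.le, h⟩
    exact (Set.countable_iUnion fun n =>
      (finite_eig C hC _ (by positivity)).countable).mono hsub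
  refine (hcnt.biUnion fun c hc => (finite_param A C hC hcomm c hc.1).countable).mono ?_
  rintro t ⟨x, hx0, hx⟩
  obtain ⟨c, hc, y, hy0, hy1, hy2⟩ := joint_eigen A C hcomm hex t (hfin t) ⟨x, hx0, hx⟩
  exact Set.mem_biUnion (show c ∈ {c : ℂ | c ≠ 0 ∧ ∃ x : X, x ≠ 0 ∧ C x = c • x} from
    ⟨hc, y, hy0, hy1⟩) ⟨y, hy0, hy1, hy2⟩

/-- Some `A + t C` is injective. -/
theorem exists_inj (A C : X →L[ℂ] X) (hC : IsCompactOperator C)
    (hcomm : ∀ x, A (C x) = C (A x))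
    (hex : ∀ x y, A y = C x → ∃ z, x = A z ∧ y = C z)
    (hfin : ∀ t : ℂ, FiniteDimensional ℂ
      (LinearMap.ker ((A + t • C : X →L[ℂ] X) : X →ₗ[ℂ] X))) :
    ∃ t : ℂ, ∀ x, A x + t • C x = 0 → x = 0 := by
  by_contra hcon
  push Not at hcon
  have h1 := countable_bad A C hC hcomm hex hfin
  have h2 : {t : ℂ | ∃ x, x ≠ 0 ∧ A x + t • C x = 0} = Set.univ := by
    ext t
    obtain ⟨x, hx, hx0⟩ := hcon t
    exact iff_of_true ⟨x, hx0, hx⟩ (Set.mem_univ t)
  rw [h2] at h1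
  exact not_countable_complex h1

end Pool.Agent.R853.CP
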