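import Pool.Agent.R853.CP.Bad

/-!
Fredholm operators on Hilbert space, the surjective case, and the reduction of the general case
with positive index to it.
-/

open Module Filter Topology

namespace Pool.Agent.R853.CP

section ban

variable {X Y : Type*} [NormedAddCommGroup X] [NormedSpace ℂ X] [NormedAddCommGroup Y]
  [NormedSpace ℂ Y]

lemma compact_of_mem (L : X →L[ℂ] Y) (V : Submodule ℂ Y) (hV : FiniteDimensional ℂ V)
    (h : ∀ x, L x ∈ V) : IsCompactOperator L := by
  have : ProperSpace V := FiniteDimensional.proper ℂ V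
  have h1 : IsCompactOperator (V.subtypeL) := isCompactOperator_of_locallyCompactSpace_rng _
  exact h1.comp_clm (L.codRestrict V h)

lemma lift_functional [CompleteSpace X] [CompleteSpace Y] (E : X →L[ℂ] Y)
    (hE : Function.Surjective E) (φ : X →L[ℂ] ℂ) (h : ∀ x, E x = 0 → φ x = 0) :
    ∃ ψ : Y →L[ℂ] ℂ, ∀ x, ψ (E x) = φ x := by
  obtain ⟨C, hC0, hC⟩ := E.exists_preimage_norm_le hE
  have hker : LinearMap.ker (E : X →ₗ[ℂ] Y) ≤ LinearMap.ker (φ : X →ₗ[ℂ] ℂ) := fun x hx => h x hx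
  choose s hs using hC
  have hwd : ∀ x x', E x = E x' → φ x = φ x' := by
    intro x x' hxx
    have := h (x - x') (by rw [map_sub, hxx, sub_self])
    rw [map_sub, sub_eq_zero] at this
    exact this
  set ψ₀ : Y →ₗ[ℂ] ℂ :=
    { toFun := fun y => φ (s y)
      map_add' := fun a b => by
        rw [← map_add]
        apply hwd
        rw [map_add, (hs _).1, (hs _).1, (hs _).1]
      map_smul' := fun r a => by
        rw [RingHom.id_apply, ← map_smul]
        apply hwd
        rw [map_smul, (hs _).1, (hs _).1] } with hψ₀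
  refine ⟨ψ₀.mkContinuous (‖φ‖ * C) ?_, fun x => ?_⟩
  · intro y
    show ‖φ (s y)‖ ≤ _
    calc ‖φ (s y)‖ ≤ ‖φ‖ * ‖s y‖ := φ.le_opNorm _
      _ ≤ ‖φ‖ * (C * ‖y‖) := mul_le_mul_of_nonneg_left (hs y).2 (norm_nonneg _)
      _ = ‖φ‖ * C * ‖y‖ := by ring
  · show φ (s (E x)) = φ x
    exact hwd _ _ (hs _).1

end ban

variable {H : Type*} [NormedAddCommGroup H] [InnerProductSpace ℂ H] [CompleteSpace H]

/-- A Fredholm operator: closed range, finite dimensional kernel and cokernel. -/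
structure IsFred (T : H →L[ℂ] H) : Prop where
  closed : IsClosed ((LinearMap.range (T : H →ₗ[ℂ] H) : Submodule ℂ H) : Set H)
  ker : FiniteDimensional ℂ (LinearMap.ker (T : H →ₗ[ℂ] H))
  coker : FiniteDimensional ℂ (H ⧸ LinearMap.range (T : H →ₗ[ℂ] H))

/-- The Fredholm index. -/
noncomputable def ind (T : H →L[ℂ] H) : ℤ :=
  (finrank ℂ (LinearMap.ker (T : H →ₗ[ℂ] H)) : ℤ) -
    (finrank ℂ (H ⧸ LinearMap.range (T : H →ₗ[ℂ] H)) : ℤ)

/-- Taylor invertibility of a pair: exactness of the Koszul complex at its three places. -/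
def InvPair (S₁ S₂ : H →L[ℂ] H) : Prop :=
  (∀ x, S₁ x = 0 → S₂ x = 0 → x = 0) ∧ (∀ h, ∃ x y, S₁ x + S₂ y = h) ∧
    (∀ x y, S₁ y = S₂ x → ∃ z, x = S₁ z ∧ y = S₂ z)

/-- A bounded right inverse of a surjective operator with finite dimensional kernel. -/
lemma exists_right_inv (T : H →L[ℂ] H) (hs : Function.Surjective T)
    (hk : FiniteDimensional ℂ (LinearMap.ker (T : H →ₗ[ℂ] H))) :
    ∃ R : H →L[ℂ] H, (∀ x, T (R x) = x) ∧
      ∃ P : H →L[ℂ] H, IsCompactOperator P ∧ ∀ x, R (T x) = x - P x := by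
  set N : Submodule ℂ H := LinearMap.ker (T : H →ₗ[ℂ] H) with hN
  have hNcl : IsClosed (N : Set H) := T.isClosed_ker
  set f : Nᗮ →L[ℂ] H := T ∘L Nᗮ.subtypeL with hf
  have hfinj : f.ker = ⊥ := by
    rw [LinearMap.ker_eq_bot']
    intro x hx
    have h1 : (x : H) ∈ N := hx
    have h2 : (x : H) = 0 := by
      have := Submodule.inner_right_of_mem_orthogonal h1 x.2
      exact inner_self_eq_zero.1 this
    exact Subtype.ext h2
  have hmem0 : ∀ x ∈ N, T x = 0 := fun x hx => hx
  have hfsurj : f.range = ⊤ := by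
    rw [LinearMap.range_eq_top]
    intro h
    obtain ⟨u, hu⟩ := hs h
    refine ⟨⟨u - N.starProjection u, ?_⟩, ?_⟩
    · exact Submodule.sub_starProjection_mem_orthogonal u
    · show T (u - N.starProjection u) = h
      rw [map_sub, hmem0 _ (Submodule.starProjection_apply_mem N u), sub_zero, hu]
  set e := ContinuousLinearEquiv.ofBijective f hfinj hfsurj with he
  set R : H →L[ℂ] H := Nᗮ.subtypeL ∘L (e.symm : H →L[ℂ] Nᗮ) with hR
  have hTR : ∀ x, T (R x) = x := by
    intro x
    have : f (e.symm x) = x := ContinuousLinearEquiv.ofBijective_apply_symm_apply f hfinj hfsurj x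
    exact this
  refine ⟨R, hTR, 1 - R ∘L T, ?_, fun x => by simp⟩
  refine compact_of_mem _ N hk fun x => ?_
  show T ((1 - R ∘L T : H →L[ℂ] H) x) = 0
  simp [hTR]

/-- The surjective case. -/
theorem surj_case (T : H →L[ℂ] H) (hs : Function.Surjective T)
    (hk : FiniteDimensional ℂ (LinearMap.ker (T : H →ₗ[ℂ] H)))
    (hne : ∃ v, v ≠ 0 ∧ T v = 0) (K₁ K₂ : H →L[ℂ] H) (h1 : IsCompactOperator K₁)
    (h2 : IsCompactOperator K₂)
    (hcomm : ∀ x, (T + K₁) ((T + K₂) x) = (T + K₂) ((T + K₁) x))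
    (hex : ∀ x y, (T + K₁) y = (T + K₂) x → ∃ z, x = (T + K₁) z ∧ y = (T + K₂) z) : False := by
  obtain ⟨R, hTR, P, hP, hRT⟩ := exists_right_inv T hs hk
  set A : H →L[ℂ] H := T + K₁ with hA
  set B : H →L[ℂ] H := T + K₂ with hB
  set C : H →L[ℂ] H := K₂ - K₁ with hC
  have hBAC : B = A + C := by rw [hA, hB, hC]; abel
  have hCc : IsCompactOperator C := h2.sub h1
  have hKt : ∀ t : ℂ, A + t • C = T + (K₁ + t • C) := fun t => by rw [hA]; abel
  have hKtc : ∀ t : ℂ, IsCompactOperator (K₁ + t • C : H →L[ℂ] H) :=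
    fun t => h1.add (hCc.smul t)
  have hfin : ∀ t : ℂ, FiniteDimensional ℂ
      (LinearMap.ker ((A + t • C : H →L[ℂ] H) : H →ₗ[ℂ] H)) := by
    intro t
    refine finDim_of_fix (P - R ∘L (K₁ + t • C)) (hP.sub ((hKtc t).clm_comp R)) _
      (A + t • C).isClosed_ker ?_
    intro x hx
    have hx1 : (A + t • C) x = 0 := hx
    rw [hKt] at hx1
    have hx2 : T x = -((K₁ + t • C) x) := eq_neg_of_add_eq_zero_left hx1
    have hx3 := hRT x
    rw [hx2, map_neg] at hx3
    show P x - R ((K₁ + t • C) x) = x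
    rw [sub_eq_add_neg, hx3]
    abel
  have hcommC : ∀ x, A (C x) = C (A x) := by
    intro x
    have h3 := hcomm x
    rw [hBAC] at h3
    simpa using h3
  have hexC : ∀ x y, A y = C x → ∃ z, x = A z ∧ y = C z := by
    intro x y hxy
    obtain ⟨z, hz1, hz2⟩ := hex x (y + x) (by rw [map_add, hxy, hBAC]; simp [add_comm])
    refine ⟨z, hz1, ?_⟩
    rw [hBAC] at hz2
    have : y + x = x + C z := by
      rw [hz2, ContinuousLinearMap.add_apply, ← hz1]
    rw [add_comm] at this
    exact add_left_cancel this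
  obtain ⟨t, ht⟩ := exists_inj A C hCc hcommC hexC hfin
  set K : H →L[ℂ] H := K₁ + t • C with hK
  have hinj : ∀ x, T x + K x = 0 → x = 0 := by
    intro x hx
    apply ht
    have : (A + t • C) x = (T + K) x := by rw [hKt]
    simpa [hx] using this
  have hKR : IsCompactOperator (K ∘L R) := (hKtc t).comp_clm R
  have hGinj : ∀ x, x + K (R x) = 0 → x = 0 := by
    intro x hx
    have h3 : T (R x) + K (R x) = 0 := by rw [hTR]; exact hx
    have h4 := hinj _ h3
    rw [← hTR x, h4, map_zero]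
  have hGsurj : ∀ y, ∃ x, x + K (R x) = y := by
    rcases hKR.hasEigenvalue_or_mem_resolventSet (μ := (-1 : ℂ)) (by norm_num) with h3 | h3
    · exfalso
      obtain ⟨v, hv⟩ := h3.exists_hasEigenvector
      refine hv.2 (hGinj v ?_)
      have h4 : K (R v) = (-1 : ℂ) • v := hv.apply_eq_smul
      rw [h4]
      simp
    · rw [spectrum.mem_resolventSet_iff, ContinuousLinearMap.isUnit_iff_bijective] at h3
      intro y
      obtain ⟨x, hx⟩ := h3.2 (-y)
      refine ⟨x, ?_⟩
      have h5 : (-1 : ℂ) • x - K (R x) = -y := by simpa [Algebra.algebraMap_eq_smul_one] using hx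
      rw [neg_one_smul] at h5
      have h6 : x + K (R x) = -(-x - K (R x)) := by abel
      rw [h6, h5, neg_neg]
  obtain ⟨v, hv0, hv⟩ := hne
  obtain ⟨u, hu⟩ := hGsurj (T v + K v)
  have h7 : v - R u = 0 := by
    apply hinj
    rw [map_sub, map_sub, hTR]
    have : T v - u + (K v - K (R u)) = (T v + K v) - (u + K (R u)) := by abel
    rw [this, hu, sub_self]
  have h8 : v = R u := sub_eq_zero.1 h7
  have h9 : u = 0 := by rw [← hTR u, ← h8, hv]
  exact hv0 (by rw [h8, h9, map_zero])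

end Pool.Agent.R853.CP
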