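import Pool.Agent.R853.CP.Fred

/-!
General Fredholm operators, adjoints, and the final dichotomy.
-/

open Module Filter Topology

namespace Pool.Agent.R853.CP

variable {H : Type*} [NormedAddCommGroup H] [InnerProductSpace ℂ H] [CompleteSpace H]

lemma finrank_coker (T : H →L[ℂ] H) (hT : IsFred T) :
    FiniteDimensional ℂ ((LinearMap.range (T : H →ₗ[ℂ] H))ᗮ : Submodule ℂ H) ∧
      finrank ℂ (H ⧸ LinearMap.range (T : H →ₗ[ℂ] H)) =
        finrank ℂ ((LinearMap.range (T : H →ₗ[ℂ] H))ᗮ : Submodule ℂ H) := by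
  have : CompleteSpace (LinearMap.range (T : H →ₗ[ℂ] H)) := hT.closed.completeSpace_coe
  have e := Submodule.quotientEquivOfIsCompl (LinearMap.range (T : H →ₗ[ℂ] H))
    ((LinearMap.range (T : H →ₗ[ℂ] H))ᗮ)
    (Submodule.isCompl_orthogonal _)
  have := hT.coker
  exact ⟨Module.Finite.equiv e, e.finrank_eq⟩

/-- Perturbing an operator with closed range by a linear map from its kernel to the orthogonal
complement of its range. -/
lemma perturb (T : H →L[ℂ] H) (N M : Submodule ℂ H) (hN : ∀ x, x ∈ N ↔ T x = 0)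
    (hM : ∀ y, y ∈ M ↔ ∃ x, T x = y) (hMcl : IsClosed (M : Set H))
    (hk : FiniteDimensional ℂ N) (hr : FiniteDimensional ℂ (Mᗮ : Submodule ℂ H))
    (g : N →ₗ[ℂ] (Mᗮ : Submodule ℂ H)) (hg : Function.Surjective g) :
    ∃ F : H →L[ℂ] H, IsCompactOperator F ∧ Function.Surjective (T + F) ∧
      ∀ x : H, (T + F) x = 0 ↔ ∃ h : x ∈ N, g ⟨x, h⟩ = 0 := by
  have hMc : CompleteSpace M := hMcl.completeSpace_coe
  set gc : N →L[ℂ] (Mᗮ : Submodule ℂ H) := LinearMap.toContinuousLinearMap g with hgc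
  set F : H →L[ℂ] H := Mᗮ.subtypeL ∘L gc ∘L N.orthogonalProjectionOnto with hF
  have hFmem : ∀ x, F x ∈ Mᗮ := fun x => (gc (N.orthogonalProjectionOnto x)).2
  have hFN : ∀ (x : H) (hx : x ∈ N), F x = g ⟨x, hx⟩ := by
    intro x hx
    have : N.orthogonalProjectionOnto x = ⟨x, hx⟩ :=
      Submodule.orthogonalProjectionOnto_mem_subspace_eq_self (⟨x, hx⟩ : N)
    show ((gc (N.orthogonalProjectionOnto x) : (Mᗮ : Submodule ℂ H)) : H) = g ⟨x, hx⟩
    rw [this]
    rfl
  have hFo : ∀ x ∈ Nᗮ, F x = 0 := by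
    intro x hx
    have : N.orthogonalProjectionOnto x = 0 :=
      Submodule.orthogonalProjectionOnto_apply_of_mem_orthogonal hx
    show ((gc (N.orthogonalProjectionOnto x) : (Mᗮ : Submodule ℂ H)) : H) = 0
    rw [this, map_zero]
    rfl
  have hTM : ∀ x, T x ∈ M := fun x => (hM _).2 ⟨x, rfl⟩
  have hT0 : ∀ x ∈ N, T x = 0 := fun x hx => (hN x).1 hx
  have hdisj : ∀ a ∈ M, ∀ b ∈ Mᗮ, a + b = 0 → a = 0 ∧ b = 0 := by
    intro a ha b hb hab
    have h1 : a = -b := eq_neg_of_add_eq_zero_left hab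
    have h2 : a ∈ Mᗮ := by rw [h1]; exact Submodule.neg_mem _ hb
    have h3 : a = 0 := inner_self_eq_zero.1 (Submodule.inner_right_of_mem_orthogonal ha h2)
    refine ⟨h3, ?_⟩
    rw [h3, zero_add] at hab
    exact hab
  refine ⟨F, compact_of_mem F Mᗮ hr hFmem, ?_, ?_⟩
  · intro h
    obtain ⟨u, hu⟩ : ∃ u, T u = M.starProjection h :=
      (hM _).1 (Submodule.starProjection_apply_mem M h)
    have h2 : h - M.starProjection h ∈ Mᗮ := Submodule.sub_starProjection_mem_orthogonal h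
    obtain ⟨n, hn⟩ := hg ⟨_, h2⟩
    set u' := u - N.starProjection u with hu'
    have hu'N : u' ∈ Nᗮ := Submodule.sub_starProjection_mem_orthogonal u
    have hTu' : T u' = M.starProjection h := by
      rw [hu', map_sub, hT0 _ (Submodule.starProjection_apply_mem N u), sub_zero, hu]
    refine ⟨u' + n, ?_⟩
    rw [add_apply, map_add, map_add, hTu', hT0 _ n.2, hFo _ hu'N,
      hFN _ n.2, hn]
    simp
  · intro x
    constructor
    · intro hx
      have h1 : T x + F x = 0 := hx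
      obtain ⟨h2, h3⟩ := hdisj _ (hTM x) _ (hFmem x) h1
      refine ⟨(hN x).2 h2, ?_⟩
      rw [hFN x ((hN x).2 h2)] at h3
      exact Subtype.ext h3
    · rintro ⟨h1, h2⟩
      rw [add_apply, hT0 _ h1, hFN x h1, h2]
      simp

/-- Linear surjections between finite dimensional spaces. -/
lemma exists_surj (V W : Type*) [AddCommGroup V] [Module ℂ V] [AddCommGroup W] [Module ℂ W]
    [FiniteDimensional ℂ V] [FiniteDimensional ℂ W] (h : finrank ℂ W ≤ finrank ℂ V) :
    ∃ g : V →ₗ[ℂ] W, Function.Surjective g := by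
  have e1 := LinearEquiv.ofFinrankEq (R := ℂ) V (Fin (finrank ℂ V) → ℂ) (by simp)
  have e2 := LinearEquiv.ofFinrankEq (R := ℂ) W (Fin (finrank ℂ W) → ℂ) (by simp)
  refine ⟨e2.symm.toLinearMap ∘ₗ (LinearMap.funLeft ℂ ℂ (Fin.castLE h)) ∘ₗ e1.toLinearMap, ?_⟩
  have h1 := LinearMap.funLeft_surjective_of_injective ℂ ℂ (Fin.castLE h) (Fin.castLE_injective h)
  exact e2.symm.surjective.comp (h1.comp e1.surjective)

/-- Positive index: impossible. -/
theorem pos_case (T : H →L[ℂ] H) (hT : IsFred T) (hi : 0 < ind T)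
    (K₁ K₂ : H →L[ℂ] H) (h1 : IsCompactOperator K₁) (h2 : IsCompactOperator K₂)
    (hcomm : ∀ x, (T + K₁) ((T + K₂) x) = (T + K₂) ((T + K₁) x))
    (hex : ∀ x y, (T + K₁) y = (T + K₂) x → ∃ z, x = (T + K₁) z ∧ y = (T + K₂) z) : False := by
  have hk := hT.ker
  obtain ⟨hr, hrk⟩ := finrank_coker T hT
  have hlt : finrank ℂ ((LinearMap.range (T : H →ₗ[ℂ] H))ᗮ : Submodule ℂ H) <
      finrank ℂ (LinearMap.ker (T : H →ₗ[ℂ] H)) := by
    rw [ind, hrk] at hi
    omega
  obtain ⟨g, hg⟩ := exists_surj (LinearMap.ker (T : H →ₗ[ℂ] H))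
    ((LinearMap.range (T : H →ₗ[ℂ] H))ᗮ : Submodule ℂ H) hlt.le
  obtain ⟨F, hF, hFs, hF0⟩ := perturb T _ _ (fun x => LinearMap.mem_ker)
    (fun y => LinearMap.mem_range) hT.closed hk hr g hg
  have hle : LinearMap.ker ((T + F : H →L[ℂ] H) : H →ₗ[ℂ] H) ≤
      LinearMap.ker (T : H →ₗ[ℂ] H) := by
    intro x hx
    obtain ⟨h, -⟩ := (hF0 x).1 hx
    exact h
  have hkf : FiniteDimensional ℂ (LinearMap.ker ((T + F : H →L[ℂ] H) : H →ₗ[ℂ] H)) :=
    Submodule.finiteDimensional_of_le hle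
  have hne : ∃ v, v ≠ 0 ∧ (T + F) v = 0 := by
    by_contra hcon
    push Not at hcon
    have hginj : Function.Injective g := by
      rw [← LinearMap.ker_eq_bot, LinearMap.ker_eq_bot']
      intro m hm
      by_contra hm0
      exact hcon m (fun h => hm0 (Subtype.ext h)) ((hF0 m).2 ⟨m.2, hm⟩)
    have := LinearMap.finrank_le_finrank_of_injective hginj
    omega
  have e1 : (T + F) + (K₁ - F) = T + K₁ := by abel
  have e2 : (T + F) + (K₂ - F) = T + K₂ := by abel
  refine surj_case (T + F) hFs hkf hne (K₁ - F) (K₂ - F) (h1.sub hF) (h2.sub hF) ?_ ?_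
  · rw [e1, e2]; exact hcomm
  · rw [e1, e2]; exact hex

/-- Index zero: possible (known). -/
theorem zero_case (T : H →L[ℂ] H) (hT : IsFred T) (hi : ind T = 0) :
    ∃ K : H →L[ℂ] H, IsCompactOperator K ∧ Function.Bijective (T + K) := by
  have hk := hT.ker
  obtain ⟨hr, hrk⟩ := finrank_coker T hT
  have hlt : finrank ℂ ((LinearMap.range (T : H →ₗ[ℂ] H))ᗮ : Submodule ℂ H) =
      finrank ℂ (LinearMap.ker (T : H →ₗ[ℂ] H)) := by
    rw [ind, hrk] at hi
    omega
  obtain ⟨g, hg⟩ := exists_surj (LinearMap.ker (T : H →ₗ[ℂ] H))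
    ((LinearMap.range (T : H →ₗ[ℂ] H))ᗮ : Submodule ℂ H) hlt.le
  obtain ⟨F, hF, hFs, hF0⟩ := perturb T _ _ (fun x => LinearMap.mem_ker)
    (fun y => LinearMap.mem_range) hT.closed hk hr g hg
  refine ⟨F, hF, ?_, hFs⟩
  have hginj : Function.Injective g :=
    (LinearMap.injective_iff_surjective_of_finrank_eq_finrank hlt.symm).2 hg
  have : ∀ x, (T + F) x = 0 → x = 0 := by
    intro x hx
    obtain ⟨h, hh⟩ := (hF0 x).1 hx
    have := hginj (hh.trans (map_zero g).symm)
    exact congrArg Subtype.val this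
  intro a b hab
  have h3 := this (a - b) (by rw [map_sub, hab, sub_self])
  exact sub_eq_zero.1 h3

/-- Functionals vanishing on the kernel of an operator with closed range come from the
adjoint. -/
lemma exists_adjoint_eq (T : H →L[ℂ] H)
    (hcl : IsClosed ((LinearMap.range (T : H →ₗ[ℂ] H) : Submodule ℂ H) : Set H)) (y : H)
    (hy : y ∈ (LinearMap.ker (T : H →ₗ[ℂ] H))ᗮ) :
    ∃ z, ContinuousLinearMap.adjoint T z = y := by
  set M : Submodule ℂ H := LinearMap.range (T : H →ₗ[ℂ] H) with hM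
  have hMc : CompleteSpace M := hcl.completeSpace_coe
  set E : H →L[ℂ] M := T.codRestrict M (fun x => ⟨x, rfl⟩) with hE
  have hEs : Function.Surjective E := by
    rintro ⟨m, x, rfl⟩
    exact ⟨x, rfl⟩
  obtain ⟨ψ, hψ⟩ := lift_functional E hEs (innerSL ℂ y) (by
    intro x hx
    have hx1 : T x = 0 := congrArg Subtype.val hx
    have hx2 : x ∈ LinearMap.ker (T : H →ₗ[ℂ] H) := hx1
    exact Submodule.inner_left_of_mem_orthogonal hx2 hy)
  set z : M := (InnerProductSpace.toDual ℂ M).symm ψ with hz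
  refine ⟨z, ?_⟩
  refine ext_inner_right ℂ fun x => ?_
  rw [ContinuousLinearMap.adjoint_inner_left]
  have h1 : inner ℂ z (E x) = ψ (E x) := InnerProductSpace.toDual_symm_apply
  rw [hψ] at h1
  exact h1

/-- The adjoint of a compact operator is compact. -/
lemma compact_adjoint (C : H →L[ℂ] H) (hC : IsCompactOperator C) :
    IsCompactOperator (ContinuousLinearMap.adjoint C) := by
  set D : H →L[ℂ] H := ContinuousLinearMap.adjoint C with hD
  set G : H →L[ℂ] H := C ∘L D with hG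
  have hGc : IsCompactOperator G := hC.comp_clm D
  have hest : ∀ a b : H, ‖D a - D b‖ ^ 2 ≤ ‖G a - G b‖ * ‖a - b‖ := by
    intro a b
    have h1 : (inner ℂ (D (a - b)) (D (a - b)) : ℂ) = inner ℂ (a - b) (G (a - b)) := by
      rw [hD, ContinuousLinearMap.adjoint_inner_left]
      rfl
    have h2 : ‖D (a - b)‖ ^ 2 = ‖(inner ℂ (D (a - b)) (D (a - b)) : ℂ)‖ := by
      rw [inner_self_eq_norm_sq_to_K]
      simp
    rw [← map_sub, ← map_sub, h2, h1]
    calc ‖(inner ℂ (a - b) (G (a - b)) : ℂ)‖ ≤ ‖a - b‖ * ‖G (a - b)‖ := norm_inner_le_norm _ _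
      _ = _ := by ring
  have htb : TotallyBounded (G '' Metric.closedBall 0 1) := by
    obtain ⟨K, hK, hK'⟩ := hGc.image_closedBall_subset_compact 1
    exact hK.totallyBounded.subset hK'
  have htb2 : TotallyBounded (D '' Metric.closedBall 0 1) := by
    rw [Metric.totallyBounded_iff]
    intro ε hε
    obtain ⟨t, ht, htf, htc⟩ := Metric.finite_approx_of_totallyBounded htb (ε ^ 2 / 4)
      (by positivity)
    have hr : ∀ y : H, ∃ x : H, y ∈ t → x ∈ Metric.closedBall (0 : H) 1 ∧ G x = y := by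
      intro y
      by_cases hy : y ∈ t
      · obtain ⟨x, hx, hxy⟩ := ht hy
        exact ⟨x, fun _ => ⟨hx, hxy⟩⟩
      · exact ⟨0, fun h => absurd h hy⟩
    choose r hr using hr
    refine ⟨(fun y => D (r y)) '' t, htf.image _, ?_⟩
    rintro _ ⟨x, hx, rfl⟩
    obtain ⟨y, hy, hxy⟩ := Set.mem_iUnion₂.1 (htc ⟨x, hx, rfl⟩)
    refine Set.mem_iUnion₂.2 ⟨D (r y), ⟨y, hy, rfl⟩, ?_⟩
    obtain ⟨h1, h2⟩ := hr y hy
    rw [Metric.mem_ball, dist_eq_norm] at hxy ⊢
    rw [Metric.mem_closedBall, dist_zero_right] at hx h1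
    have h3 := hest x (r y)
    rw [h2] at h3
    have h4 : ‖x - r y‖ ≤ 2 := (norm_sub_le _ _).trans (by linarith)
    have h5 : ‖D x - D (r y)‖ ^ 2 < ε ^ 2 := by
      nlinarith [norm_nonneg (G x - y), norm_nonneg (x - r y)]
    exact lt_of_pow_lt_pow_left₀ 2 hε.le h5
  refine (isCompactOperator_iff_isCompact_closure_image_closedBall (D : H →ₗ[ℂ] H)
    (one_pos)).2 ?_
  exact htb2.closure.isCompact_of_isClosed isClosed_closure

lemma fred_adjoint (T : H →L[ℂ] H) (hT : IsFred T) :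
    IsFred (ContinuousLinearMap.adjoint T) ∧ ind (ContinuousLinearMap.adjoint T) = - ind T := by
  have hk := hT.ker
  obtain ⟨hr, hrk⟩ := finrank_coker T hT
  have hker : LinearMap.ker ((ContinuousLinearMap.adjoint T : H →L[ℂ] H) : H →ₗ[ℂ] H) =
      (LinearMap.range (T : H →ₗ[ℂ] H))ᗮ := (ContinuousLinearMap.orthogonal_range T).symm
  have hran : LinearMap.range ((ContinuousLinearMap.adjoint T : H →L[ℂ] H) : H →ₗ[ℂ] H) =
      (LinearMap.ker (T : H →ₗ[ℂ] H))ᗮ := by
    apply le_antisymm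
    · rintro _ ⟨z, rfl⟩
      rw [Submodule.mem_orthogonal]
      intro u hu
      have hu0 : T u = 0 := hu
      show inner ℂ u (ContinuousLinearMap.adjoint T z) = 0
      rw [ContinuousLinearMap.adjoint_inner_right, hu0, inner_zero_left]
    · intro y hy
      obtain ⟨z, hz⟩ := exists_adjoint_eq T hT.closed y hy
      exact ⟨z, hz⟩
  have e := Submodule.quotientEquivOfIsCompl ((LinearMap.ker (T : H →ₗ[ℂ] H))ᗮ)
    (LinearMap.ker (T : H →ₗ[ℂ] H)) (Submodule.isCompl_orthogonal _).symm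
  have hfq : FiniteDimensional ℂ (H ⧸ (LinearMap.ker (T : H →ₗ[ℂ] H))ᗮ) :=
    Module.Finite.equiv e.symm
  refine ⟨⟨?_, ?_, ?_⟩, ?_⟩
  · rw [hran]
    exact Submodule.isClosed_orthogonal _
  · rw [hker]
    exact hr
  · rw [hran]
    exact hfq
  · rw [ind, ind, hker, hran, hrk, e.finrank_eq]
    ring

/-- The exactness in the middle passes to adjoints. -/
lemma adjoint_exact (A B : H →L[ℂ] H) (hsum : ∀ h, ∃ x y, A x + B y = h)
    (hex : ∀ x y, A y = B x → ∃ z, x = A z ∧ y = B z) (x y : H)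
    (hxy : ContinuousLinearMap.adjoint A y = ContinuousLinearMap.adjoint B x) :
    ∃ z, x = ContinuousLinearMap.adjoint A z ∧ y = ContinuousLinearMap.adjoint B z := by
  set E : H × H →L[ℂ] H :=
    A ∘L ContinuousLinearMap.fst ℂ H H + B ∘L ContinuousLinearMap.snd ℂ H H with hE
  have hEa : ∀ p, E p = A p.1 + B p.2 := fun p => rfl
  have hEs : Function.Surjective E := by
    intro h
    obtain ⟨u, v, huv⟩ := hsum h
    exact ⟨(u, v), huv⟩
  set φ : H × H →L[ℂ] ℂ :=
    (innerSL ℂ x) ∘L ContinuousLinearMap.fst ℂ H H +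
      (innerSL ℂ y) ∘L ContinuousLinearMap.snd ℂ H H with hφ
  have hφa : ∀ p, φ p = inner ℂ x p.1 + inner ℂ y p.2 := fun p => rfl
  obtain ⟨ψ, hψ⟩ := lift_functional E hEs φ (by
    rintro ⟨u, v⟩ huv
    rw [hEa] at huv
    have h1 : A u = B (-v) := by
      rw [map_neg]
      exact eq_neg_of_add_eq_zero_left huv
    obtain ⟨w, hw1, hw2⟩ := hex _ _ h1
    have hv : v = - A w := by rw [← hw1, neg_neg]
    rw [hφa]
    show inner ℂ x u + inner ℂ y v = 0
    rw [hv, hw2, inner_neg_right, ← ContinuousLinearMap.adjoint_inner_left,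
      ← ContinuousLinearMap.adjoint_inner_left, hxy]
    ring)
  refine ⟨(InnerProductSpace.toDual ℂ H).symm ψ, ?_, ?_⟩
  · refine ext_inner_right ℂ fun u => ?_
    rw [ContinuousLinearMap.adjoint_inner_left, InnerProductSpace.toDual_symm_apply]
    have h1 := hψ (u, 0)
    rw [hEa, hφa] at h1
    simpa using h1.symm
  · refine ext_inner_right ℂ fun u => ?_
    rw [ContinuousLinearMap.adjoint_inner_left, InnerProductSpace.toDual_symm_apply]
    have h1 := hψ (0, u)
    rw [hEa, hφa] at h1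
    simpa using h1.symm

/-- The dichotomy. -/
theorem dichotomy (T : H →L[ℂ] H) (hT : IsFred T) :
    (∃ K₁ K₂ : H →L[ℂ] H, IsCompactOperator K₁ ∧ IsCompactOperator K₂ ∧
      (T + K₁) * (T + K₂) = (T + K₂) * (T + K₁) ∧ InvPair (T + K₁) (T + K₂)) ↔ ind T = 0 := by
  constructor
  · rintro ⟨K₁, K₂, h1, h2, hcomm, -, hsum, hex⟩
    have hc : ∀ x, (T + K₁) ((T + K₂) x) = (T + K₂) ((T + K₁) x) := fun x =>
      congrArg (fun L : H →L[ℂ] H => L x) hcomm
    by_contra hi
    rcases lt_or_gt_of_ne hi with h | h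
    · obtain ⟨hT', hi'⟩ := fred_adjoint T hT
      have ha1 : ContinuousLinearMap.adjoint (T + K₁) =
          ContinuousLinearMap.adjoint T + ContinuousLinearMap.adjoint K₁ := map_add _ _ _
      have ha2 : ContinuousLinearMap.adjoint (T + K₂) =
          ContinuousLinearMap.adjoint T + ContinuousLinearMap.adjoint K₂ := map_add _ _ _
      refine pos_case (ContinuousLinearMap.adjoint T) hT' (by rw [hi']; omega)
        (ContinuousLinearMap.adjoint K₁) (ContinuousLinearMap.adjoint K₂)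
        (compact_adjoint K₁ h1) (compact_adjoint K₂ h2) ?_ ?_
      · intro x
        rw [← ha1, ← ha2]
        have h3 : ContinuousLinearMap.adjoint ((T + K₁) ∘L (T + K₂)) =
            ContinuousLinearMap.adjoint ((T + K₂) ∘L (T + K₁)) :=
          congrArg ContinuousLinearMap.adjoint hcomm
        rw [ContinuousLinearMap.adjoint_comp, ContinuousLinearMap.adjoint_comp] at h3
        exact (congrArg (fun L : H →L[ℂ] H => L x) h3).symm
      · rw [← ha1, ← ha2]
        exact adjoint_exact _ _ hsum hex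
    · exact pos_case T hT h K₁ K₂ h1 h2 hc hex
  · intro hi
    obtain ⟨K, hK, hb⟩ := zero_case T hT hi
    refine ⟨K, K, hK, hK, rfl, ?_, ?_, ?_⟩
    · intro x hx _
      exact hb.1 (hx.trans (map_zero _).symm)
    · intro h
      obtain ⟨x, hx⟩ := hb.2 h
      exact ⟨x, 0, by rw [hx, map_zero, add_zero]⟩
    · intro x y hxy
      obtain ⟨z, hz⟩ := hb.2 x
      exact ⟨z, hz.symm, (hb.1 hxy).trans hz.symm⟩

end Pool.Agent.R853.CP
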