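import Mathlib

/-!
Riesz theory facts for compact operators that are not in Mathlib: fixed spaces are finite
dimensional, and only finitely many eigenvalues lie outside a disc around zero.
-/

open Module Module.End Filter Topology

namespace Pool.Agent.R853.CP

variable {X : Type*} [NormedAddCommGroup X] [NormedSpace ℂ X]

/-- A closed subspace on which a compact operator is the identity is finite dimensional. -/
lemma finDim_of_fix (K : X →L[ℂ] X) (hK : IsCompactOperator K) (V : Submodule ℂ X)
    (hV : IsClosed (V : Set X)) (h : ∀ x ∈ V, K x = x) : FiniteDimensional ℂ V := by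
  apply FiniteDimensional.of_isCompactOperator_id (𝕜 := ℂ)
  have h1 := hK.comp_clm V.subtypeL
  have h2 := h1.codRestrict (V := V) (fun x => by
    have := h x x.2
    simp [this]) hV
  have h3 : (id : V → V) = Set.codRestrict ((K : X → X) ∘ V.subtypeL) V (fun x => by
    have := h x x.2
    simp [this]) := by
    funext x
    apply Subtype.ext
    exact (h x x.2).symm
  rw [h3]
  exact h2

/-- A compact operator has only finitely many eigenvalues of modulus at least `ε`. -/
lemma finite_eig (C : X →L[ℂ] X) (hC : IsCompactOperator C) (ε : ℝ) (hε : 0 < ε) :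
    {c : ℂ | ε ≤ ‖c‖ ∧ ∃ x : X, x ≠ 0 ∧ C x = c • x}.Finite := by
  by_contra hinf
  obtain ⟨f, hf⟩ := Set.Infinite.natEmbedding _ hinf
  have hmem : ∀ n, ε ≤ ‖(f n : ℂ)‖ := fun n => (f n).2.1
  choose x hx0 hx using fun n => (f n).2.2
  have hinj : Function.Injective (fun n => (f n : ℂ)) := fun a b h => hf (Subtype.ext h)
  have hli : LinearIndependent ℂ x :=
    Module.End.eigenvectors_linearIndependent' (C : End ℂ X) (fun n => (f n : ℂ)) hinj x
      (fun n => (hasEigenvector_iff).2 ⟨by rw [mem_eigenspace_iff]; exact hx n, hx0 n⟩)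
  set V : ℕ → Submodule ℂ X := fun n => Submodule.span ℂ (x '' Set.Iio n) with hVdef
  have hVfin : ∀ n, FiniteDimensional ℂ (V n) := fun n =>
    FiniteDimensional.span_of_finite ℂ ((Set.finite_Iio n).image x)
  have hVcl : ∀ n, IsClosed (V n : Set X) := fun n => (V n).closed_of_finiteDimensional
  have hVmono : Monotone V := fun a b hab =>
    Submodule.span_mono (Set.image_mono (Set.Iio_subset_Iio hab))
  have hxV : ∀ n, x n ∈ V (n + 1) := fun n =>
    Submodule.subset_span ⟨n, Set.mem_Iio.2 (Nat.lt_succ_self n), rfl⟩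
  have hxnV : ∀ n, x n ∉ V n := by
    intro n hn
    exact (hli.notMem_span_image (s := Set.Iio n) (x := n) (by simp)) hn
  have hstep : ∀ n, ∀ y ∈ V (n + 1), C y - (f n : ℂ) • y ∈ V n := by
    intro n y hy
    induction hy using Submodule.span_induction with
    | mem y hy =>
      obtain ⟨k, hk, rfl⟩ := hy
      rcases Nat.lt_succ_iff_lt_or_eq.1 (Set.mem_Iio.1 hk) with h | h
      · rw [hx k]
        have : x k ∈ V n := Submodule.subset_span ⟨k, h, rfl⟩
        exact Submodule.sub_mem _ (Submodule.smul_mem _ _ this) (Submodule.smul_mem _ _ this)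
      · subst h
        rw [hx k, sub_self]
        exact Submodule.zero_mem _
    | zero => simp
    | add a b _ _ ha hb =>
      have : C (a + b) - (f n : ℂ) • (a + b) = (C a - (f n : ℂ) • a) + (C b - (f n : ℂ) • b) := by
        rw [map_add, smul_add]; abel
      rw [this]
      exact Submodule.add_mem _ ha hb
    | smul r a _ ha =>
      have : C (r • a) - (f n : ℂ) • (r • a) = r • (C a - (f n : ℂ) • a) := by
        rw [map_smul, smul_sub, smul_comm]
      rw [this]
      exact Submodule.smul_mem _ _ ha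
  have hinv : ∀ n, ∀ y ∈ V n, C y ∈ V n := by
    intro n y hy
    have h1 := hstep n y (hVmono (Nat.le_succ n) hy)
    have h2 : C y = (C y - (f n : ℂ) • y) + (f n : ℂ) • y := by abel
    rw [h2]
    exact Submodule.add_mem _ h1 (Submodule.smul_mem _ _ hy)
  -- Riesz sequence
  have hr : ∀ n, ∃ y ∈ V (n + 1), ‖y‖ = 1 ∧ ∀ z ∈ V n, (1 / 2 : ℝ) ≤ ‖y - z‖ := by
    intro n
    have h1 : IsClosed (((V n).comap (V (n + 1)).subtype : Submodule ℂ (V (n + 1))) :
        Set (V (n + 1))) := (hVcl n).preimage continuous_subtype_val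
    obtain ⟨y, -, hy1, hy2⟩ := riesz_lemma_of_lt_one (𝕜 := ℂ) h1
      ⟨⟨x n, hxV n⟩, fun h => hxnV n h⟩ (r := 1 / 2) (by norm_num)
    refine ⟨y, y.2, hy1, fun z hz => ?_⟩
    exact hy2 ⟨z, hVmono (Nat.le_succ n) hz⟩ hz
  choose y hyV hy1 hyd using hr
  have hsep : ∀ m n, m < n → ε / 2 ≤ ‖C (y n) - C (y m)‖ := by
    intro m n hmn
    have hc0 : (f n : ℂ) ≠ 0 := by
      intro h
      have := hmem n
      rw [h, norm_zero] at this
      linarith
    have hym : C (y m) ∈ V n := hinv n _ (hVmono (Nat.succ_le_of_lt hmn) (hyV m))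
    set w : X := (f n : ℂ)⁻¹ • (C (y m) - (C (y n) - (f n : ℂ) • y n)) with hw
    have hwV : w ∈ V n := Submodule.smul_mem _ _ (Submodule.sub_mem _ hym (hstep n _ (hyV n)))
    have h1 : C (y n) - C (y m) = (f n : ℂ) • (y n - w) := by
      rw [hw, smul_sub, smul_inv_smul₀ hc0]
      abel
    rw [h1, norm_smul]
    have h2 := hyd n w hwV
    have h3 := hmem n
    nlinarith [norm_nonneg (f n : ℂ)]
  obtain ⟨K, hK, hK'⟩ := hC.image_closedBall_subset_compact 1
  obtain ⟨z, -, ψ, hψ, hψz⟩ := hK.tendsto_subseq (x := fun n => C (y n))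
    (fun n => hK' ⟨y n, by simp [hy1 n], rfl⟩)
  have hca := hψz.cauchySeq
  rw [Metric.cauchySeq_iff'] at hca
  obtain ⟨N, hN⟩ := hca (ε / 2) (by positivity)
  have h1 := hN (N + 1) (Nat.le_succ N)
  rw [dist_eq_norm] at h1
  have h2 := hsep (ψ N) (ψ (N + 1)) (hψ (Nat.lt_succ_self N))
  simp only [Function.comp] at h1
  linarith

end Pool.Agent.R853.CP
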