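import Pool.Agent.R853.CP.Main

/-!
The backward shift on `ℓ²(ℕ)` is Fredholm of index one.
-/

open Module Filter Topology

namespace Pool.Agent.R853.CP

/-- The Hilbert space `ℓ²(ℕ)`. -/
abbrev L2 : Type := lp (fun _ : ℕ => ℂ) 2

lemma summ (x : L2) : Summable fun n => ‖x n‖ ^ 2 := by
  have := lp.memℓp x
  rw [memℓp_gen_iff (by norm_num)] at this
  simpa using this

lemma nsq (x : L2) : ‖x‖ ^ 2 = ∑' n, ‖x n‖ ^ 2 := by
  have := lp.norm_rpow_eq_tsum (p := 2) (by norm_num) x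
  simpa using this

lemma memof (f : ℕ → ℂ) (h : Summable fun n => ‖f n‖ ^ 2) : Memℓp f 2 := by
  rw [memℓp_gen_iff (by norm_num)]
  simpa using h

/-- The backward shift. -/
noncomputable def bsh : L2 →L[ℂ] L2 :=
  LinearMap.mkContinuous
    { toFun := fun x => ⟨fun n => x (n + 1), memof _ ((summable_nat_add_iff 1).2 (summ x))⟩
      map_add' := fun x y => by
        ext n
        rfl
      map_smul' := fun c x => by
        ext n
        rfl } 1 (by
    intro x
    rw [one_mul]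
    have h1 : ‖(⟨fun n => x (n + 1), memof _ ((summable_nat_add_iff 1).2 (summ x))⟩ : L2)‖ ^ 2
        ≤ ‖x‖ ^ 2 := by
      rw [nsq, nsq, (summ x).tsum_eq_zero_add]
      have : 0 ≤ ‖x 0‖ ^ 2 := by positivity
      show ∑' n, ‖x (n + 1)‖ ^ 2 ≤ _
      linarith
    exact le_of_sq_le_sq h1 (norm_nonneg _))

lemma bsh_apply (x : L2) (n : ℕ) : bsh x n = x (n + 1) := rfl

lemma bsh_surj : Function.Surjective bsh := by
  intro y
  set f : ℕ → ℂ := fun n => if n = 0 then 0 else y (n - 1) with hf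
  have hs : Summable fun n => ‖f n‖ ^ 2 := by
    rw [← summable_nat_add_iff 1]
    exact summ y
  refine ⟨⟨f, memof f hs⟩, ?_⟩
  ext n
  rw [bsh_apply]
  show f (n + 1) = y n
  simp [hf]

lemma bsh_ker : finrank ℂ (LinearMap.ker (bsh : L2 →ₗ[ℂ] L2)) = 1 := by
  rw [finrank_eq_one_iff']
  refine ⟨⟨lp.single 2 0 1, ?_⟩, ?_, ?_⟩
  · rw [LinearMap.mem_ker]
    ext n
    show (lp.single 2 0 (1 : ℂ) : L2) (n + 1) = 0
    simp [lp.single_apply]
  · intro h
    have h1 := congrArg (fun z : LinearMap.ker (bsh : L2 →ₗ[ℂ] L2) => (z : L2) 0) h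
    simp [lp.single_apply] at h1
  · rintro ⟨w, hw⟩
    refine ⟨w 0, Subtype.ext ?_⟩
    ext n
    show (w 0 • (lp.single 2 0 (1 : ℂ) : L2)) n = w n
    rcases n with _ | n
    · simp [lp.single_apply]
    · have h1 : w (n + 1) = 0 := by
        have h2 : bsh w = 0 := hw
        have h3 := congrArg (fun z : L2 => z n) h2
        exact h3
      rw [h1]
      simp [lp.single_apply]

lemma bsh_fred : IsFred bsh ∧ ind bsh = 1 := by
  have hr : LinearMap.range (bsh : L2 →ₗ[ℂ] L2) = ⊤ := LinearMap.range_eq_top.2 bsh_surj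
  have hq : Subsingleton (L2 ⧸ LinearMap.range (bsh : L2 →ₗ[ℂ] L2)) := by
    rw [hr]
    infer_instance
  refine ⟨⟨?_, ?_, ?_⟩, ?_⟩
  · rw [hr]
    exact isClosed_univ
  · exact FiniteDimensional.of_finrank_pos (by rw [bsh_ker]; norm_num)
  · infer_instance
  · rw [ind, bsh_ker, finrank_zero_of_subsingleton]
    norm_num

/-- There are compact `K₁`, `K₂` such that `T + K₁` and `T + K₂` commute and form an invertible
pair. -/
def HasInvPert {H : Type*} [NormedAddCommGroup H] [InnerProductSpace ℂ H] [CompleteSpace H]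
    (T : H →L[ℂ] H) : Prop :=
  ∃ K₁ K₂ : H →L[ℂ] H, IsCompactOperator K₁ ∧ IsCompactOperator K₂ ∧
    Commute (T + K₁) (T + K₂) ∧ InvPair (T + K₁) (T + K₂)

end Pool.Agent.R853.CP
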